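import Mathlib

set_option autoImplicit false

/-!
# Restrictions of cuspidal functions to closures of conjugacy classes

Let `F` be a finite field with `q ≡ 1 mod 4` elements, `G = PGL_2` and `O` the conjugacy class of
regular unipotent elements. We show that `S_cusp(O-bar)` is a proper subset of `S_w(O-bar)`.
-/

open Matrix
open scoped MatrixGroups

namespace Pool.Agent.Results.MP_21a573_al.PGL2RegularUnipotent

noncomputable section

universe u

/-- The line `L` of `F ^ 2` determines a Borel subgroup of `PGL_2`, its stabiliser (these are all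
the proper parabolic subgroups defined over `F`). This is the set of `F`-points of its unipotent
radical: the classes of the matrices `A` acting trivially on `L` and on `F ^ 2 / L`. -/
def radical (F : Type u) [Field F] (L : Submodule F (Fin 2 → F)) : Set PGL(2, F) :=
  {x | ∃ A : GL (Fin 2) F, ProjGenLinGroup.mk A = x ∧
    ∀ v : Fin 2 → F, (A : Matrix (Fin 2) (Fin 2) F) *ᵥ v - v ∈ L ∧
      (v ∈ L → (A : Matrix (Fin 2) (Fin 2) F) *ᵥ v = v)}

/-- A function on `PGL_2(F)` is cuspidal if all its sums over the cosets `gU`, with `U` the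
unipotent radical of a proper parabolic subgroup defined over `F`, vanish. -/
def Cuspidal (F : Type u) [Field F] (φ : PGL(2, F) → ℂ) : Prop :=
  ∀ (L : Submodule F (Fin 2 → F)), Module.finrank F L = 1 → ∀ g : PGL(2, F),
    ∑ᶠ u : radical F L, φ (g * u) = 0

/-- The Zariski closure of a subset `S` of `PGL_2(K)`, for an algebraically closed field `K`:
the set of the classes of the matrices on which vanish all the polynomials in the entries vanishing
on the inverse image of `S` in `GL_2(K)`. -/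
def zariskiClosure (K : Type u) [Field K] (S : Set PGL(2, K)) : Set PGL(2, K) :=
  {x | ∀ p : MvPolynomial (Fin 2 × Fin 2) K,
    (∀ A : GL (Fin 2) K, ProjGenLinGroup.mk A ∈ S →
      MvPolynomial.eval (fun ij => (A : Matrix (Fin 2) (Fin 2) K) ij.1 ij.2) p = 0) →
    ∀ A : GL (Fin 2) K, ProjGenLinGroup.mk A = x →
      MvPolynomial.eval (fun ij => (A : Matrix (Fin 2) (Fin 2) K) ij.1 ij.2) p = 0}

/-- The set of `F`-points of the Zariski closure of the conjugacy class of `c` in `PGL_2` over the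
algebraic closure of `F`. -/
def Obar (F : Type u) [Field F] (c : PGL(2, AlgebraicClosure F)) : Set PGL(2, F) :=
  {x | ProjGenLinGroup.map (algebraMap F (AlgebraicClosure F)) x ∈
    zariskiClosure (AlgebraicClosure F) {y | IsConj c y}}

/-- The set of restrictions to `O-bar` of cuspidal functions on `PGL_2(F)`. -/
def Scusp (F : Type u) [Field F] (c : PGL(2, AlgebraicClosure F)) : Set (Obar F c → ℂ) :=
  {f | ∃ φ : PGL(2, F) → ℂ, Cuspidal F φ ∧ ∀ x : Obar F c, φ x = f x}

/-- The set of functions on `O-bar` whose sums over the cosets `gU` contained in `O-bar` vanish.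
(The containment is that of the sets of `F`-points; it holds for all the cosets which are
contained in the closure of the class as varieties, so that this is the smaller one of the two
readings of `S_w`.) -/
def Sw (F : Type u) [Field F] (c : PGL(2, AlgebraicClosure F)) : Set (Obar F c → ℂ) :=
  {f | ∀ (L : Submodule F (Fin 2 → F)), Module.finrank F L = 1 → ∀ (g : PGL(2, F))
    (h : ∀ u ∈ radical F L, g * u ∈ Obar F c),
      ∑ᶠ u : radical F L, f ⟨g * u, h u u.2⟩ = 0}

/-- The unipotent matrix with rows `(1, t)` and `(0, 1)`. -/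
def unip (K : Type u) [Field K] (t : K) : GL (Fin 2) K :=
  GeneralLinearGroup.mkOfDetNeZero !![1, t; 0, 1] (by simp)

/-! ### The proof -/

section proof

variable {F : Type u} [Field F]

@[simp] theorem unip_coe (t : F) : (unip F t : Matrix (Fin 2) (Fin 2) F) = !![1, t; 0, 1] := rfl

/-- the sign of an element of `PGL_2(F)`: the quadratic character of the determinant -/
def sgnGL (F : Type u) [Field F] [Fintype F] [DecidableEq F] : GL (Fin 2) F →* ℤ :=
  (quadraticChar F).toMonoidHom.comp ((Units.coeHom F).comp GeneralLinearGroup.det)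

def sgn (F : Type u) [Field F] [Fintype F] [DecidableEq F] : PGL(2, F) →* ℤ :=
  ProjGenLinGroup.lift (sgnGL F) (by
    ext u
    simp only [sgnGL, MonoidHom.coe_comp, Function.comp_apply, MonoidHom.one_apply]
    have h : ((GeneralLinearGroup.det (GeneralLinearGroup.scalar (Fin 2) u) : Fˣ) : F)
        = (u : F) ^ 2 := by
      simp [sq]
    change quadraticChar F (((GeneralLinearGroup.det (GeneralLinearGroup.scalar (Fin 2) u) : Fˣ) : F)) = 1
    rw [h]
    exact quadraticChar_sq_one' u.ne_zero)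

theorem sgn_mk [Fintype F] [DecidableEq F] (A : GL (Fin 2) F) :
    sgn F (ProjGenLinGroup.mk A) = quadraticChar F (A : Matrix (Fin 2) (Fin 2) F).det := rfl

theorem sgn_mul_self [Fintype F] [DecidableEq F] (x : PGL(2, F)) : sgn F x * sgn F x = 1 := by
  induction x using ProjGenLinGroup.induction_on with | mk A =>
  rw [sgn_mk, ← sq]
  exact quadraticChar_sq_one (GeneralLinearGroup.det A).ne_zero

theorem sgn_inv [Fintype F] [DecidableEq F] (x : PGL(2, F)) : sgn F x⁻¹ = sgn F x := by
  have h1 : sgn F x * sgn F x⁻¹ = 1 := by rw [← map_mul, mul_inv_cancel, map_one]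
  have h2 := sgn_mul_self x
  calc sgn F x⁻¹ = (sgn F x * sgn F x) * sgn F x⁻¹ := by rw [h2, one_mul]
    _ = sgn F x * (sgn F x * sgn F x⁻¹) := by ring
    _ = sgn F x := by rw [h1, mul_one]

instance [Finite F] : Finite PGL(2, F) :=
  Finite.of_surjective _ (ProjGenLinGroup.mk_surjective (n := Fin 2) (R := F))


theorem mk_coe_inj {A B : GL (Fin 2) F} (c : F) (hc : c ≠ 0)
    (h : (B : Matrix (Fin 2) (Fin 2) F) = c • (A : Matrix (Fin 2) (Fin 2) F)) :
    (ProjGenLinGroup.mk A : PGL(2, F)) = ProjGenLinGroup.mk B := by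
  rw [ProjGenLinGroup.mk_eq_mk_iff]
  refine ⟨Units.mk0 c hc, Units.ext ?_⟩
  rw [h]
  ext i j
  simp [Matrix.mul_apply, Fin.sum_univ_two, GeneralLinearGroup.coe_scalar]
  fin_cases j <;> simp [mul_comm]

/-- the line of the first basis vector -/
def L0 (F : Type u) [Field F] : Submodule F (Fin 2 → F) := Submodule.span F {![1, 0]}

theorem mem_L0 (v : Fin 2 → F) : v ∈ L0 F ↔ v 1 = 0 := by
  rw [L0, Submodule.mem_span_singleton]
  constructor
  · rintro ⟨a, rfl⟩
    simp
  · intro h
    refine ⟨v 0, ?_⟩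
    ext i
    fin_cases i <;> simp [h]

theorem L0_rank : Module.finrank F (L0 F) = 1 := by
  apply finrank_span_singleton
  intro h
  have := congrFun h 0
  simp at this

theorem radical_L0 : radical F (L0 F) = Set.range fun t : F => ProjGenLinGroup.mk (unip F t) := by
  ext x
  constructor
  · rintro ⟨A, rfl, hA⟩
    refine ⟨(A : Matrix (Fin 2) (Fin 2) F) 0 1, ?_⟩
    have h1 := (hA ![1, 0]).2 ((mem_L0 _).2 rfl)
    have h2 := (hA ![0, 1]).1
    rw [mem_L0] at h2
    have h3 := congrFun h1 0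
    have h4 := congrFun h1 1
    simp [Matrix.mulVec, dotProduct, Fin.sum_univ_two] at h2 h3 h4
    apply mk_coe_inj 1 one_ne_zero
    ext i j
    fin_cases i <;> fin_cases j <;> simp [h3, h4, sub_eq_zero.1 h2]
  · rintro ⟨t, rfl⟩
    refine ⟨unip F t, rfl, fun v => ⟨?_, fun hv => ?_⟩⟩
    · rw [mem_L0]
      simp [Matrix.mulVec, dotProduct, Fin.sum_univ_two]
    · rw [mem_L0] at hv
      ext i
      fin_cases i <;> simp [Matrix.mulVec, dotProduct, Fin.sum_univ_two, hv]

theorem mk_unip_inj {s t : F} (h : (ProjGenLinGroup.mk (unip F s) : PGL(2, F)) =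
    ProjGenLinGroup.mk (unip F t)) : s = t := by
  rw [ProjGenLinGroup.mk_eq_mk_iff] at h
  obtain ⟨c, hc⟩ := h
  have h1 := congrArg (fun A : GL (Fin 2) F => (A : Matrix (Fin 2) (Fin 2) F) 0 0) hc
  have h2 := congrArg (fun A : GL (Fin 2) F => (A : Matrix (Fin 2) (Fin 2) F) 0 1) hc
  simp [Matrix.mul_apply, Fin.sum_univ_two, GeneralLinearGroup.coe_scalar] at h1 h2
  rw [h1] at h2
  simpa using h2

/-- the radical of the standard line is parametrised by `F` -/
def radEquiv (F : Type u) [Field F] : F ≃ radical F (L0 F) :=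
  Equiv.ofBijective (fun t => ⟨ProjGenLinGroup.mk (unip F t), by rw [radical_L0]; exact ⟨t, rfl⟩⟩)
    ⟨fun s t h => mk_unip_inj (congrArg Subtype.val h), by
      rintro ⟨x, hx⟩
      have hx' := hx
      rw [radical_L0] at hx'
      obtain ⟨t, ht⟩ := hx'
      exact ⟨t, Subtype.ext ht⟩⟩

theorem radEquiv_apply (t : F) :
    ((radEquiv F t : radical F (L0 F)) : PGL(2, F)) = ProjGenLinGroup.mk (unip F t) := rfl

/-- the image of a line under a matrix -/
def mapL (A : GL (Fin 2) F) (L : Submodule F (Fin 2 → F)) : Submodule F (Fin 2 → F) :=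
  L.map (Matrix.mulVecLin (A : Matrix (Fin 2) (Fin 2) F))

theorem inv_mulVec_mulVec (A : GL (Fin 2) F) (v : Fin 2 → F) :
    ((A⁻¹ : GL (Fin 2) F) : Matrix (Fin 2) (Fin 2) F) *ᵥ ((A : Matrix (Fin 2) (Fin 2) F) *ᵥ v)
      = v := by
  rw [Matrix.mulVec_mulVec, ← Units.val_mul, inv_mul_cancel, Units.val_one, Matrix.one_mulVec]

theorem mulVec_inv_mulVec (A : GL (Fin 2) F) (v : Fin 2 → F) :
    (A : Matrix (Fin 2) (Fin 2) F) *ᵥ (((A⁻¹ : GL (Fin 2) F) : Matrix (Fin 2) (Fin 2) F) *ᵥ v)
      = v := by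
  rw [Matrix.mulVec_mulVec, ← Units.val_mul, mul_inv_cancel, Units.val_one, Matrix.one_mulVec]

theorem mem_mapL (A : GL (Fin 2) F) (L : Submodule F (Fin 2 → F)) (v : Fin 2 → F) :
    v ∈ mapL A L ↔ ((A⁻¹ : GL (Fin 2) F) : Matrix (Fin 2) (Fin 2) F) *ᵥ v ∈ L := by
  rw [mapL, Submodule.mem_map]
  constructor
  · rintro ⟨w, hw, rfl⟩
    rw [Matrix.mulVecLin_apply, inv_mulVec_mulVec]
    exact hw
  · intro h
    exact ⟨_, h, by rw [Matrix.mulVecLin_apply, mulVec_inv_mulVec]⟩

theorem mapL_rank (A : GL (Fin 2) F) (L : Submodule F (Fin 2 → F)) :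
    Module.finrank F (mapL A L) = Module.finrank F L := by
  have h : Function.Injective (Matrix.mulVecLin (A : Matrix (Fin 2) (Fin 2) F)) := by
    intro v w hvw
    have := congrArg (fun v => ((A⁻¹ : GL (Fin 2) F) : Matrix (Fin 2) (Fin 2) F) *ᵥ v) hvw
    simpa only [Matrix.mulVecLin_apply, inv_mulVec_mulVec] using this
  exact (Submodule.equivMapOfInjective _ h L).finrank_eq.symm

theorem conj_mem_radical (A : GL (Fin 2) F) (L : Submodule F (Fin 2 → F)) {x : PGL(2, F)}
    (hx : x ∈ radical F L) :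
    ProjGenLinGroup.mk A * x * (ProjGenLinGroup.mk A)⁻¹ ∈ radical F (mapL A L) := by
  obtain ⟨C, rfl, hC⟩ := hx
  refine ⟨A * C * A⁻¹, by simp [map_mul, map_inv], fun v => ?_⟩
  have key : ((A * C * A⁻¹ : GL (Fin 2) F) : Matrix (Fin 2) (Fin 2) F) *ᵥ v =
      (A : Matrix (Fin 2) (Fin 2) F) *ᵥ ((C : Matrix (Fin 2) (Fin 2) F) *ᵥ
        (((A⁻¹ : GL (Fin 2) F) : Matrix (Fin 2) (Fin 2) F) *ᵥ v)) := by
    rw [Units.val_mul, Units.val_mul, Matrix.mulVec_mulVec, Matrix.mulVec_mulVec]
  rw [key]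
  constructor
  · rw [mem_mapL, Matrix.mulVec_sub, inv_mulVec_mulVec]
    exact (hC _).1
  · intro hv
    rw [mem_mapL] at hv
    rw [(hC _).2 hv, mulVec_inv_mulVec]

theorem mapL_inv (A : GL (Fin 2) F) (L : Submodule F (Fin 2 → F)) : mapL A⁻¹ (mapL A L) = L := by
  ext v
  rw [mem_mapL, mem_mapL, inv_inv, inv_mulVec_mulVec]

/-- conjugation by `A` identifies the radicals of `L` and of `A L` -/
def conjEquiv (A : GL (Fin 2) F) (L : Submodule F (Fin 2 → F)) :
    radical F L ≃ radical F (mapL A L) where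
  toFun x := ⟨ProjGenLinGroup.mk A * x * (ProjGenLinGroup.mk A)⁻¹, conj_mem_radical A L x.2⟩
  invFun x := ⟨(ProjGenLinGroup.mk A)⁻¹ * x * ProjGenLinGroup.mk A, by
    have h := conj_mem_radical A⁻¹ (mapL A L) x.2
    rw [mapL_inv, map_inv, inv_inv] at h
    exact h⟩
  left_inv x := by
    apply Subtype.ext
    simp [mul_assoc]
  right_inv x := by
    apply Subtype.ext
    simp [mul_assoc]

theorem sum_mapL (ψ : PGL(2, F) → ℂ) (g : PGL(2, F)) (A : GL (Fin 2) F)
    (L : Submodule F (Fin 2 → F)) :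
    ∑ᶠ u : radical F (mapL A L), ψ (g * u) =
      ∑ᶠ u : radical F L, ψ (g * (ProjGenLinGroup.mk A * u * (ProjGenLinGroup.mk A)⁻¹)) :=
  (finsum_comp_equiv (conjEquiv A L) (f := fun u : radical F (mapL A L) => ψ (g * u))).symm

theorem exists_mapL (L : Submodule F (Fin 2 → F)) (hL : Module.finrank F L = 1) :
    ∃ A : GL (Fin 2) F, mapL A (L0 F) = L := by
  obtain ⟨⟨v, hvL⟩, hv0, hv⟩ := finrank_eq_one_iff'.1 hL
  have hv0' : v ≠ 0 := fun h => hv0 (Subtype.ext h)
  have hspan : L = Submodule.span F {v} := by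
    apply le_antisymm
    · intro w hw
      obtain ⟨c, hc⟩ := hv ⟨w, hw⟩
      rw [Submodule.mem_span_singleton]
      exact ⟨c, congrArg Subtype.val hc⟩
    · rw [Submodule.span_singleton_le_iff_mem]
      exact hvL
  have key : ∀ A : GL (Fin 2) F, (A : Matrix (Fin 2) (Fin 2) F) *ᵥ ![1, 0] = v →
      mapL A (L0 F) = L := by
    intro A hA
    rw [mapL, L0, Submodule.map_span, Set.image_singleton, Matrix.mulVecLin_apply, hA, hspan]
  by_cases h0 : v 0 = 0
  · have h1 : v 1 ≠ 0 := by
      intro h1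
      apply hv0'
      ext i
      fin_cases i <;> simp [h0, h1]
    refine ⟨GeneralLinearGroup.mkOfDetNeZero !![0, 1; v 1, 0] (by simp [h1]), key _ ?_⟩
    ext i
    fin_cases i <;> simp [Matrix.mulVec, dotProduct, Fin.sum_univ_two, h0,
      GeneralLinearGroup.mkOfDetNeZero]
  · refine ⟨GeneralLinearGroup.mkOfDetNeZero !![v 0, 0; v 1, 1] (by simp [h0]), key _ ?_⟩
    ext i
    fin_cases i <;> simp [Matrix.mulVec, dotProduct, Fin.sum_univ_two,
      GeneralLinearGroup.mkOfDetNeZero]

/-! #### The closure of the regular unipotent class -/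

/-- the regular unipotent element of `PGL_2(F)` -/
abbrev u1 (F : Type u) [Field F] : PGL(2, F) := ProjGenLinGroup.mk (unip F 1)

theorem map_u1 (K : Type u) [Field K] (f : F →+* K) : ProjGenLinGroup.map f (u1 F) = u1 K := by
  rw [u1, ProjGenLinGroup.map_mk, u1]
  congr 1
  apply Units.ext
  ext i j
  fin_cases i <;> fin_cases j <;> simp

theorem Obar_of_conj {x : PGL(2, F)} (h : IsConj (u1 F) x) :
    x ∈ Obar F (u1 (AlgebraicClosure F)) := by
  intro p hp A hA
  apply hp A
  rw [hA]
  show IsConj _ _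
  rw [← map_u1 (AlgebraicClosure F) (algebraMap F (AlgebraicClosure F))]
  obtain ⟨c, hc⟩ := isConj_iff.1 h
  rw [isConj_iff]
  exact ⟨ProjGenLinGroup.map (algebraMap F (AlgebraicClosure F)) c, by rw [← hc]; simp⟩

/-- the discriminant of a matrix -/
theorem disc_conj {K : Type u} [Field K] (A B : GL (Fin 2) K) (c : K)
    (h : (B : Matrix (Fin 2) (Fin 2) K) =
      c • ((A : Matrix (Fin 2) (Fin 2) K) * !![1, 1; 0, 1] *
        ((A⁻¹ : GL (Fin 2) K) : Matrix (Fin 2) (Fin 2) K))) :
    (B : Matrix (Fin 2) (Fin 2) K).trace ^ 2 = 4 * (B : Matrix (Fin 2) (Fin 2) K).det := by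
  have h1 : ((A⁻¹ : GL (Fin 2) K) : Matrix (Fin 2) (Fin 2) K) *
      (A : Matrix (Fin 2) (Fin 2) K) = 1 := by
    rw [← Units.val_mul, inv_mul_cancel, Units.val_one]
  have h2 : (A : Matrix (Fin 2) (Fin 2) K).det *
      ((A⁻¹ : GL (Fin 2) K) : Matrix (Fin 2) (Fin 2) K).det = 1 := by
    rw [mul_comm, ← Matrix.det_mul, h1, Matrix.det_one]
  have htr : (B : Matrix (Fin 2) (Fin 2) K).trace = 2 * c := by
    rw [h, Matrix.trace_smul, Matrix.trace_mul_comm, ← Matrix.mul_assoc, h1, Matrix.one_mul]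
    simp [Matrix.trace_fin_two]
    ring
  have hdet : (B : Matrix (Fin 2) (Fin 2) K).det = c ^ 2 := by
    rw [h, Matrix.det_smul, Matrix.det_mul, Matrix.det_mul]
    simp only [Matrix.det_fin_two_of, Fintype.card_fin]
    linear_combination c ^ 2 * h2
  rw [htr, hdet]
  ring

theorem disc_of_Obar {A : GL (Fin 2) F}
    (h : ProjGenLinGroup.mk A ∈ Obar F (u1 (AlgebraicClosure F))) :
    (A : Matrix (Fin 2) (Fin 2) F).trace ^ 2 = 4 * (A : Matrix (Fin 2) (Fin 2) F).det := by
  set K := AlgebraicClosure F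
  have h' := h ((MvPolynomial.X (0, 0) + MvPolynomial.X (1, 1)) ^ 2 -
    4 * (MvPolynomial.X (0, 0) * MvPolynomial.X (1, 1) -
      MvPolynomial.X (0, 1) * MvPolynomial.X (1, 0))) ?_ (GeneralLinearGroup.map (algebraMap F K) A)
    (ProjGenLinGroup.map_mk _ _).symm
  · have h4 : MvPolynomial.eval (fun ij : Fin 2 × Fin 2 =>
        (GeneralLinearGroup.map (algebraMap F K) A : Matrix (Fin 2) (Fin 2) K) ij.1 ij.2)
        (4 : MvPolynomial (Fin 2 × Fin 2) K) = 4 := map_ofNat _ 4
    simp only [map_sub, map_pow, map_add, map_mul, MvPolynomial.eval_X, h4] at h'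
    simp only [GeneralLinearGroup.map_apply] at h'
    apply (algebraMap F K).injective
    rw [Matrix.trace_fin_two, Matrix.det_fin_two]
    simp only [map_pow, map_add, map_mul, map_sub, map_ofNat]
    linear_combination h'
  · intro B hB
    have h4 : MvPolynomial.eval (fun ij : Fin 2 × Fin 2 =>
        (B : Matrix (Fin 2) (Fin 2) K) ij.1 ij.2)
        (4 : MvPolynomial (Fin 2 × Fin 2) K) = 4 := map_ofNat _ 4
    simp only [map_sub, map_pow, map_add, map_mul, MvPolynomial.eval_X, h4]
    have hB' : IsConj (u1 K) (ProjGenLinGroup.mk B) := hB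
    obtain ⟨c, hc⟩ := isConj_iff.1 hB'
    induction c using ProjGenLinGroup.induction_on with | mk C =>
    rw [u1, ← map_inv, ← map_mul, ← map_mul, ProjGenLinGroup.mk_eq_mk_iff] at hc
    obtain ⟨d, hd⟩ := hc
    have hd' := congrArg (fun M : GL (Fin 2) K => (M : Matrix (Fin 2) (Fin 2) K)) hd
    have := disc_conj C B d (by
      rw [← hd']
      ext i j
      simp [GeneralLinearGroup.coe_scalar, mul_comm])
    rw [Matrix.trace_fin_two, Matrix.det_fin_two] at this
    linear_combination this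

/-! #### The main argument -/

section fin

variable [Fintype F] [DecidableEq F]

instance : Fintype PGL(2, F) := Fintype.ofFinite _

open Classical in
/-- the function on the regular unipotent class whose sign tells the two classes of `PSL_2` apart -/
def H (x : PGL(2, F)) : ℂ :=
  ∑ z : PGL(2, F), if z * u1 F * z⁻¹ = x then (sgn F z : ℂ) else 0

theorem H_conj (y x : PGL(2, F)) : H (y * x * y⁻¹) = (sgn F y : ℂ) * H x := by
  unfold H
  rw [Finset.mul_sum]
  rw [← Equiv.sum_comp (Equiv.mulLeft y)]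
  refine Finset.sum_congr rfl fun z _ => ?_
  have h : (Equiv.mulLeft y z * u1 F * (Equiv.mulLeft y z)⁻¹ = y * x * y⁻¹) ↔
      (z * u1 F * z⁻¹ = x) := by
    simp only [Equiv.coe_mulLeft, _root_.mul_inv_rev]
    constructor
    · intro h
      have h2 := congrArg (fun w => y⁻¹ * w * y) h
      simpa [mul_assoc] using h2
    · rintro rfl
      simp [mul_assoc]
  by_cases hz : z * u1 F * z⁻¹ = x
  · rw [if_pos (h.2 hz), if_pos hz]
    simp
  · rw [if_neg (fun h' => hz (h.1 h')), if_neg hz, mul_zero]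

omit [DecidableEq F] in
theorem two_ne (hF : Fintype.card F % 4 = 1) : (2 : F) ≠ 0 := by
  have h1 : ringChar F ≠ 2 := by
    intro h
    have := FiniteField.even_card_iff_char_two.1 h
    omega
  exact Ring.two_ne_zero h1

theorem sgn_centralizer {x : PGL(2, F)} (hx : x * u1 F * x⁻¹ = u1 F) : sgn F x = 1 := by
  induction x using ProjGenLinGroup.induction_on with | mk A =>
  have h : (ProjGenLinGroup.mk (unip F 1 * A) : PGL(2, F)) =
      ProjGenLinGroup.mk (A * unip F 1) := by
    rw [map_mul, map_mul]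
    have h2 := congrArg (fun w => w * ProjGenLinGroup.mk A) hx
    simpa [mul_assoc] using h2.symm
  rw [ProjGenLinGroup.mk_eq_mk_iff] at h
  obtain ⟨c, hc⟩ := h
  have e := fun i j => congrArg (fun M : GL (Fin 2) F => (M : Matrix (Fin 2) (Fin 2) F) i j) hc
  have h00 := e 0 0
  have h01 := e 0 1
  have h10 := e 1 0
  have h11 := e 1 1
  simp [Matrix.vecMul, dotProduct, Matrix.mul_apply, Fin.sum_univ_two,
    GeneralLinearGroup.coe_scalar] at h00 h01 h10 h11
  have hdet : (A : Matrix (Fin 2) (Fin 2) F).det ≠ 0 := (GeneralLinearGroup.det A).ne_zero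
  rw [Matrix.det_fin_two] at hdet
  have hA10 : (A : Matrix (Fin 2) (Fin 2) F) 1 0 = 0 := by
    by_contra h0
    have hc1 : (c : F) = 1 := by
      apply mul_left_cancel₀ h0
      rw [mul_one]
      exact h10
    rw [hc1] at h00
    apply h0
    linear_combination h00
  rw [hA10] at hdet h11 h00
  have hA11 : (A : Matrix (Fin 2) (Fin 2) F) 1 1 ≠ 0 := by
    intro h
    rw [h] at hdet
    simp at hdet
  have hc1 : (c : F) = 1 := by
    apply mul_left_cancel₀ hA11
    linear_combination h11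
  rw [hc1] at h01
  have hA : (A : Matrix (Fin 2) (Fin 2) F) 0 0 = (A : Matrix (Fin 2) (Fin 2) F) 1 1 := by
    linear_combination -h01
  rw [sgn_mk, Matrix.det_fin_two, hA10, hA]
  rw [mul_zero, sub_zero, ← sq]
  exact quadraticChar_sq_one' hA11

theorem H_u1_ne : H (u1 F) ≠ 0 := by
  classical
  have h : H (u1 F) = ((Finset.univ.filter fun z : PGL(2, F) => z * u1 F * z⁻¹ = u1 F).card : ℂ) := by
    unfold H
    rw [← Finset.sum_filter]
    rw [Finset.sum_congr rfl (g := fun _ => (1 : ℂ))]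
    · simp
    · intro z hz
      rw [Finset.mem_filter] at hz
      rw [sgn_centralizer hz.2]
      simp
  rw [h]
  rw [Nat.cast_ne_zero]
  apply Finset.card_ne_zero_of_mem (a := 1)
  simp

/-- an element of `PGL_2` given by the entries of a matrix -/
abbrev el (a b c d : F) (h : a * d - b * c ≠ 0) : PGL(2, F) :=
  ProjGenLinGroup.mk (GeneralLinearGroup.mkOfDetNeZero !![a, b; c, d]
    (by rw [Matrix.det_fin_two_of]; exact h))

theorem sgn_el (a b c d : F) (h : a * d - b * c ≠ 0) :
    sgn F (el a b c d h) = quadraticChar F (a * d - b * c) := by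
  rw [el, sgn_mk]
  congr 1
  exact Matrix.det_fin_two_of a b c d

/-- the representation of the sign character -/
theorem H_mem_Sw (hF : Fintype.card F % 4 = 1) :
    (fun x : Obar F (u1 (AlgebraicClosure F)) => H (x : PGL(2, F))) ∈
      Sw F (u1 (AlgebraicClosure F)) := by
  have h2 := two_ne hF
  intro L hL g hg
  obtain ⟨A, rfl⟩ := exists_mapL L hL
  have hstep : ∑ᶠ u : radical F (mapL A (L0 F)), H (g * (u : PGL(2, F))) = 0 := by
    rw [sum_mapL]
    set y : PGL(2, F) := ProjGenLinGroup.mk A with hy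
    -- conjugate back
    have hrw : ∀ u : PGL(2, F), H (g * (y * u * y⁻¹)) = (sgn F y : ℂ) * H ((y⁻¹ * g * y) * u) := by
      intro u
      rw [← H_conj]
      congr 1
      simp [mul_assoc]
    simp only [hrw]
    -- the element y⁻¹ g y lies in the radical
    obtain ⟨B, hB⟩ : ∃ B : GL (Fin 2) F, ProjGenLinGroup.mk B = y⁻¹ * g * y :=
      ProjGenLinGroup.mk_surjective _
    have hdisc : ∀ t : F, ((B : Matrix (Fin 2) (Fin 2) F) 0 0 + (B : Matrix (Fin 2) (Fin 2) F) 1 1 +
        (B : Matrix (Fin 2) (Fin 2) F) 1 0 * t) ^ 2 = 4 * ((B : Matrix (Fin 2) (Fin 2) F) 0 0 *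
          (B : Matrix (Fin 2) (Fin 2) F) 1 1 - (B : Matrix (Fin 2) (Fin 2) F) 0 1 *
          (B : Matrix (Fin 2) (Fin 2) F) 1 0) := by
      intro t
      have h1 : g * (y * ProjGenLinGroup.mk (unip F t) * y⁻¹) ∈
          Obar F (u1 (AlgebraicClosure F)) := by
        apply hg
        apply conj_mem_radical
        rw [radical_L0]
        exact ⟨t, rfl⟩
      have h3 : g * (y * ProjGenLinGroup.mk (unip F t) * y⁻¹) =
          ProjGenLinGroup.mk (A * (B * unip F t) * A⁻¹) := by
        rw [map_mul, map_mul, map_mul, map_inv, hB, ← hy]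
        simp [mul_assoc]
      rw [h3] at h1
      have h := disc_of_Obar h1
      rw [Units.val_mul, Units.val_mul, Matrix.trace_units_conj, Matrix.det_units_conj,
        Matrix.trace_fin_two, Matrix.det_fin_two] at h
      simp [Matrix.mul_apply, Fin.sum_univ_two] at h
      linear_combination h
    have d0 := hdisc 0
    have d1 := hdisc 1
    have d2 := hdisc (-1)
    have hc : (B : Matrix (Fin 2) (Fin 2) F) 1 0 = 0 := by
      have : 2 * (B : Matrix (Fin 2) (Fin 2) F) 1 0 ^ 2 = 0 := by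
        linear_combination d1 + d2 - 2 * d0
      simpa [h2] using this
    have had : (B : Matrix (Fin 2) (Fin 2) F) 0 0 = (B : Matrix (Fin 2) (Fin 2) F) 1 1 := by
      rw [hc] at d0
      have : ((B : Matrix (Fin 2) (Fin 2) F) 0 0 - (B : Matrix (Fin 2) (Fin 2) F) 1 1) ^ 2 = 0 := by
        linear_combination d0
      exact sub_eq_zero.1 (pow_eq_zero_iff (two_ne_zero) |>.1 this)
    have hB11 : (B : Matrix (Fin 2) (Fin 2) F) 1 1 ≠ 0 := by
      intro h
      have hdet : (B : Matrix (Fin 2) (Fin 2) F).det ≠ 0 := (GeneralLinearGroup.det B).ne_zero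
      rw [Matrix.det_fin_two, h, hc] at hdet
      simp at hdet
    set s : F := (B : Matrix (Fin 2) (Fin 2) F) 0 1 / (B : Matrix (Fin 2) (Fin 2) F) 1 1 with hs
    have hBs : (ProjGenLinGroup.mk (unip F s) : PGL(2, F)) = y⁻¹ * g * y := by
      rw [← hB]
      apply mk_coe_inj ((B : Matrix (Fin 2) (Fin 2) F) 1 1) hB11
      ext i j
      fin_cases i <;> fin_cases j <;> simp [hc, had, hs]
      field_simp
    rw [← hBs]
    have hsum : ∑ᶠ u : radical F (L0 F), (sgn F y : ℂ) *
        H (ProjGenLinGroup.mk (unip F s) * (u : PGL(2, F))) =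
        (sgn F y : ℂ) * ∑ t : F, H (ProjGenLinGroup.mk (unip F t) : PGL(2, F)) := by
      rw [← finsum_comp_equiv (radEquiv F), finsum_eq_sum_of_fintype, ← Finset.mul_sum]
      congr 1
      conv_rhs => rw [← Equiv.sum_comp (Equiv.addLeft s)]
      refine Finset.sum_congr rfl fun t _ => ?_
      congr 1
      rw [radEquiv_apply, ← map_mul]
      congr 1
      apply Units.ext
      ext i j
      fin_cases i <;> fin_cases j <;> simp [Matrix.mul_apply, Fin.sum_univ_two, add_comm]
    rw [hsum]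
    -- use a non-square
    obtain ⟨a, ha⟩ := quadraticChar_exists_neg_one' (F := F) (by
      intro h
      have := FiniteField.even_card_iff_char_two.1 h
      omega)
    have hne : ((a : F) * 1 - 0 * 0 : F) ≠ 0 := by simp
    have hneg : ∑ t : F, H (ProjGenLinGroup.mk (unip F t) : PGL(2, F)) =
        - ∑ t : F, H (ProjGenLinGroup.mk (unip F t) : PGL(2, F)) := by
      conv_lhs => rw [← Equiv.sum_comp (Units.mulLeft a)]
      rw [← Finset.sum_neg_distrib]
      refine Finset.sum_congr rfl fun t _ => ?_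
      have : (ProjGenLinGroup.mk (unip F (Units.mulLeft a t)) : PGL(2, F)) =
          el (a : F) 0 0 1 hne * ProjGenLinGroup.mk (unip F t) * (el (a : F) 0 0 1 hne)⁻¹ := by
        rw [eq_mul_inv_iff_mul_eq, el, ← map_mul, ← map_mul]
        congr 1
        apply Units.ext
        ext i j
        fin_cases i <;> fin_cases j <;> simp [Matrix.mul_apply, Fin.sum_univ_two,
          GeneralLinearGroup.mkOfDetNeZero]
      rw [this, H_conj, sgn_el]
      simp [ha]
    have : ∑ t : F, H (ProjGenLinGroup.mk (unip F t) : PGL(2, F)) = 0 := by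
      linear_combination (1/2 : ℂ) * hneg
    rw [this, mul_zero]
  exact hstep

/-- the isotypic projection of a function for the sign character and the conjugation action -/
def Phi (φ : PGL(2, F) → ℂ) (g : PGL(2, F)) : ℂ :=
  ∑ x : PGL(2, F), (sgn F x : ℂ) * φ (x⁻¹ * g * x)

theorem Phi_conj (φ : PGL(2, F) → ℂ) (y g : PGL(2, F)) :
    Phi φ (y * g * y⁻¹) = (sgn F y : ℂ) * Phi φ g := by
  unfold Phi
  rw [Finset.mul_sum, ← Equiv.sum_comp (Equiv.mulLeft y)]
  refine Finset.sum_congr rfl fun x _ => ?_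
  have : (Equiv.mulLeft y x)⁻¹ * (y * g * y⁻¹) * Equiv.mulLeft y x = x⁻¹ * g * x := by
    simp [mul_assoc]
  rw [this]
  simp [mul_assoc]

theorem Phi_zero (φ : PGL(2, F) → ℂ) (z g : PGL(2, F)) (hz : z * g * z⁻¹ = g)
    (hs : sgn F z = -1) : Phi φ g = 0 := by
  have h := Phi_conj φ z g
  rw [hz, hs] at h
  push_cast at h
  linear_combination (1/2 : ℂ) * h

theorem Phi_sum (φ : PGL(2, F) → ℂ) (hφ : Cuspidal F φ) (g : PGL(2, F)) :
    ∑ t : F, Phi φ (g * ProjGenLinGroup.mk (unip F t)) = 0 := by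
  unfold Phi
  rw [Finset.sum_comm]
  refine Finset.sum_eq_zero fun x _ => ?_
  rw [← Finset.mul_sum]
  obtain ⟨A, rfl⟩ := ProjGenLinGroup.mk_surjective x
  have h := hφ (mapL A⁻¹ (L0 F)) (by rw [mapL_rank, L0_rank])
    ((ProjGenLinGroup.mk A)⁻¹ * g * ProjGenLinGroup.mk A)
  rw [sum_mapL, ← finsum_comp_equiv (radEquiv F), finsum_eq_sum_of_fintype] at h
  rw [← mul_zero (((sgn F (ProjGenLinGroup.mk A) : ℤ) : ℂ)), ← h]
  congr 1
  refine Finset.sum_congr rfl fun t _ => ?_
  congr 1
  rw [radEquiv_apply, map_inv, inv_inv]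
  simp [mul_assoc]

theorem Phi_u1 (φ : PGL(2, F) → ℂ)
    (h : ∀ x ∈ Obar F (u1 (AlgebraicClosure F)), φ x = H x) :
    Phi φ (u1 F) = (Fintype.card PGL(2, F) : ℂ) * H (u1 F) := by
  unfold Phi
  rw [Finset.sum_congr rfl (g := fun _ => H (u1 F))]
  · simp
  · intro x _
    rw [h _ (Obar_of_conj (isConj_iff.2 ⟨x⁻¹, by simp⟩))]
    have h1 := H_conj x⁻¹ (u1 F)
    rw [inv_inv] at h1
    rw [h1, sgn_inv, ← mul_assoc]
    have h2 := sgn_mul_self x
    have h3 : ((sgn F x : ℤ) : ℂ) * ((sgn F x : ℤ) : ℂ) = 1 := by exact_mod_cast h2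
    rw [h3, one_mul]

omit [Fintype F] [DecidableEq F] in
theorem w_mul (t : F) (h : (0 : F) * 0 - (-1) * 1 ≠ 0) (h' : (0 : F) * t - (-1) * 1 ≠ 0) :
    el (0 : F) (-1) 1 0 h * ProjGenLinGroup.mk (unip F t) = el (0 : F) (-1) 1 t h' := by
  rw [el, el, ← map_mul]
  congr 1
  apply Units.ext
  ext i j
  fin_cases i <;> fin_cases j <;> simp [Matrix.mul_apply, Fin.sum_univ_two,
    GeneralLinearGroup.mkOfDetNeZero]

omit [DecidableEq F] in
theorem exists_norm (hF : Fintype.card F % 4 = 1) (t n : F) (ht : t ^ 2 ≠ 4) :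
    ∃ x y : F, x * (x + y * t) - (-y) * y = n := by
  have h2 := two_ne hF
  have hd : t ^ 2 - 4 ≠ 0 := sub_ne_zero.2 ht
  obtain ⟨α, β, h⟩ := FiniteField.exists_root_sum_quadratic
    (f := (Polynomial.X ^ 2 - Polynomial.C (4 * n) : Polynomial F))
    (g := (Polynomial.C (-(t ^ 2 - 4)) * Polynomial.X ^ 2 : Polynomial F))
    (Polynomial.degree_X_pow_sub_C (by norm_num) _)
    (Polynomial.degree_C_mul_X_pow 2 (neg_ne_zero.2 hd)) (by omega)
  simp only [Polynomial.eval_sub, Polynomial.eval_pow, Polynomial.eval_X, Polynomial.eval_C,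
    Polynomial.eval_mul] at h
  refine ⟨(α - t * β) / 2, β, ?_⟩
  field_simp
  have h4 : (4 : F) ≠ 0 := by
    have : (4 : F) = 2 * 2 := by norm_num
    rw [this]
    exact mul_ne_zero h2 h2
  linear_combination h

theorem not_cusp (hF : Fintype.card F % 4 = 1) (φ : PGL(2, F) → ℂ) (hφ : Cuspidal F φ)
    (h : ∀ x ∈ Obar F (u1 (AlgebraicClosure F)), φ x = H x) : False := by
  have h2 := two_ne hF
  have h0 : (0 : F) * 0 - (-1) * 1 ≠ 0 := by simp
  have h0' : ∀ t : F, (0 : F) * t - (-1) * 1 ≠ 0 := by intro t; simp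
  have hsum := Phi_sum φ hφ (el (0 : F) (-1) 1 0 h0)
  simp only [fun t => w_mul t h0 (h0' t)] at hsum
  have hne : (2 : F) ≠ -2 := by
    intro h
    have : (2 : F) * 2 = 0 := by linear_combination h
    rcases mul_eq_zero.1 this with h | h <;> exact h2 h
  rw [Fintype.sum_eq_add 2 (-2) hne] at hsum
  · have hm1 : quadraticChar F (-1) = 1 := by
      rw [quadraticChar_one_iff_isSquare (by simp), FiniteField.isSquare_neg_one_iff]
      omega
    have e1 : Phi φ (el (0 : F) (-1) 1 2 (h0' 2)) = Phi φ (u1 F) := by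
      have hy : (-1 : F) * 0 - 1 * 1 ≠ 0 := by simp
      have : el (0 : F) (-1) 1 2 (h0' 2) =
          el (-1 : F) 1 1 0 hy * u1 F * (el (-1 : F) 1 1 0 hy)⁻¹ := by
        rw [eq_mul_inv_iff_mul_eq, el, el, u1, ← map_mul, ← map_mul]
        congr 1
        apply Units.ext
        ext i j
        fin_cases i <;> fin_cases j <;> simp [Matrix.mul_apply, Fin.sum_univ_two,
          GeneralLinearGroup.mkOfDetNeZero]
        norm_num
      rw [this, Phi_conj, sgn_el]
      have : (-1 : F) * 0 - 1 * 1 = -1 := by ring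
      rw [this, hm1]
      simp
    have e2 : Phi φ (el (0 : F) (-1) 1 (-2) (h0' (-2))) = Phi φ (u1 F) := by
      have hy : (-1 : F) * 0 - 1 * (-1) ≠ 0 := by simp
      have : el (0 : F) (-1) 1 (-2) (h0' (-2)) =
          el (-1 : F) 1 (-1) 0 hy * u1 F * (el (-1 : F) 1 (-1) 0 hy)⁻¹ := by
        rw [eq_mul_inv_iff_mul_eq, el, el, u1, ← map_mul, ← map_mul]
        apply mk_coe_inj (-1) (by simp)
        ext i j
        fin_cases i <;> fin_cases j <;> simp [Matrix.mul_apply, Fin.sum_univ_two,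
          GeneralLinearGroup.mkOfDetNeZero]
        norm_num
      rw [this, Phi_conj, sgn_el]
      have : (-1 : F) * 0 - 1 * (-1) = 1 := by ring
      rw [this]
      simp
    rw [e1, e2, Phi_u1 φ h] at hsum
    have hc : (Fintype.card PGL(2, F) : ℂ) ≠ 0 := by
      rw [Nat.cast_ne_zero]
      exact Fintype.card_ne_zero
    have : (Fintype.card PGL(2, F) : ℂ) * H (u1 F) = 0 := by
      linear_combination (1/2 : ℂ) * hsum
    exact (mul_ne_zero hc H_u1_ne) this
  · rintro t ⟨ht1, ht2⟩
    have ht : t ^ 2 ≠ 4 := by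
      intro h
      have : (t - 2) * (t + 2) = 0 := by linear_combination h
      rcases mul_eq_zero.1 this with h | h
      · exact ht1 (sub_eq_zero.1 h)
      · exact ht2 (eq_neg_of_add_eq_zero_left h)
    obtain ⟨a, ha⟩ := quadraticChar_exists_neg_one' (F := F) (by
      intro h
      have := FiniteField.even_card_iff_char_two.1 h
      omega)
    obtain ⟨x, y, hxy⟩ := exists_norm hF t a ht
    have hne' : x * (x + y * t) - (-y) * y ≠ 0 := by rw [hxy]; exact a.ne_zero
    apply Phi_zero φ (el x (-y) y (x + y * t) hne')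
    · rw [mul_inv_eq_iff_eq_mul, el, el, ← map_mul, ← map_mul]
      congr 1
      apply Units.ext
      ext i j
      fin_cases i <;> fin_cases j <;> simp [Matrix.mul_apply, Fin.sum_univ_two,
          GeneralLinearGroup.mkOfDetNeZero]
      all_goals ring
    · rw [sgn_el, hxy, ha]

end fin

end proof

/-- Let `F` be a finite field with `q ≡ 1 mod 4` elements and let `O` be the regular unipotent
class of `PGL_2`. Then `S_cusp(O-bar)` is a proper subset of `S_w(O-bar)`. -/
theorem result (F : Type u) [Field F] [Finite F] (hF : Nat.card F % 4 = 1) :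
    Scusp F (ProjGenLinGroup.mk (unip (AlgebraicClosure F) 1)) ⊂
      Sw F (ProjGenLinGroup.mk (unip (AlgebraicClosure F) 1)) := by
  classical
  have := Fintype.ofFinite F
  rw [Nat.card_eq_fintype_card] at hF
  rw [Set.ssubset_iff_of_subset]
  · refine ⟨_, H_mem_Sw hF, ?_⟩
    rintro ⟨φ, hφ, h⟩
    exact not_cusp hF φ hφ fun x hx => h ⟨x, hx⟩
  · rintro f ⟨φ, hφ, h⟩ L hL g hg
    rw [← hφ L hL g]
    exact finsum_congr fun u => (h ⟨g * u, hg u u.2⟩).symm

end

end Pool.Agent.Results.MP_21a573_al.PGL2RegularUnipotent
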