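/-
Restrictions of cuspidal functions to closures of conjugacy classes: for the split semisimple group
`SL_2` over the fields with two and with three elements and an elliptic conjugacy class, the space of
restrictions of cuspidal functions is strictly smaller than the space defined by the linear
conditions inside the closure of the class.
-/
import Mathlib

set_option autoImplicit false

open Matrix

namespace Pool.Agent.Results.MP_21a573_al.SmallFields

/-- The group `SL_2` over `F`. -/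
abbrev SL2 (F : Type) [CommRing F] : Type := Matrix.SpecialLinearGroup (Fin 2) F

/-- The `F`-points of the unipotent radical of the upper triangular Borel subgroup. -/
def unip (F : Type) [Field F] : Subgroup (SL2 F) where
  carrier := {g | g 0 0 = 1 ∧ g 1 0 = 0 ∧ g 1 1 = 1}
  one_mem' := by simp
  mul_mem' := by
    rintro a b ⟨ha1, ha2, ha3⟩ ⟨hb1, hb2, hb3⟩
    simp only [Set.mem_ofPred_eq, Matrix.SpecialLinearGroup.coe_mul, Matrix.mul_apply, Fin.sum_univ_two]
    rw [ha1, ha2, ha3, hb1, hb2, hb3]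
    simp
  inv_mem' := by
    rintro a ⟨ha1, ha2, ha3⟩
    simp only [Set.mem_ofPred_eq, Matrix.SpecialLinearGroup.coe_inv, Matrix.adjugate_fin_two]
    simp [ha1, ha2, ha3]

/-- The subgroups `U(F)` for `U` the unipotent radical of a proper parabolic subgroup of `SL_2`
defined over `F`: the conjugates of `unip F` (the proper parabolic subgroups of `SL_2` are its Borel
subgroups, and those defined over `F` are conjugate under the `F`-points). -/
def Rad {F : Type} [Field F] (U : Subgroup (SL2 F)) : Prop :=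
  ∃ x : SL2 F, U = (unip F).map (MulAut.conj x).toMonoidHom

/-- Cuspidal functions on `SL_2(F)`. -/
def Cuspidal {F : Type} [Field F] (φ : SL2 F → ℂ) : Prop :=
  ∀ (g : SL2 F) (U : Subgroup (SL2 F)), Rad U → ∑ᶠ u : U, φ (g * u) = 0

/-- The Zariski closure of a subset of `SL_2(K)`. -/
def zclosure {K : Type} [Field K] (O : Set (SL2 K)) : Set (SL2 K) :=
  {g | ∀ p : MvPolynomial (Fin 2 × Fin 2) K,
    (∀ h ∈ O, MvPolynomial.eval (fun i => h i.1 i.2) p = 0) →
      MvPolynomial.eval (fun i => g i.1 i.2) p = 0}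

/-- The set of `F`-points of the Zariski closure of the conjugacy class of `x` in the group `SL_2`
over the algebraic closure of `F`. -/
def Obar (F : Type) [Field F] (x : SL2 (AlgebraicClosure F)) : Set (SL2 F) :=
  {g | Matrix.SpecialLinearGroup.map (algebraMap F (AlgebraicClosure F)) g ∈ zclosure {y | IsConj x y}}

/-- The functions on `Obar F x` in the space `S_w`: the sum over every coset `g U` contained in
`Obar F x` vanishes. -/
def Weak {F : Type} [Field F] {x : SL2 (AlgebraicClosure F)} (f : Obar F x → ℂ) : Prop :=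
  ∀ (g : SL2 F) (U : Subgroup (SL2 F)), Rad U → ∀ h : ∀ u : U, g * u ∈ Obar F x,
    ∑ᶠ u : U, f ⟨g * u, h u⟩ = 0

section General

variable {F : Type} [Field F]

/-- the upper unitriangular matrices -/
def ut (t : F) : SL2 F := ⟨!![1, t; 0, 1], by simp⟩

/-- a matrix with given entries -/
def m (a b c d : F) (h : a * d - b * c = 1) : SL2 F := ⟨!![a, b; c, d], by simpa using h⟩

theorem ut_mem (t : F) : ut t ∈ unip F := by
  refine ⟨?_, ?_, ?_⟩ <;> simp [ut]

theorem mem_unip {g : SL2 F} (hg : g ∈ unip F) : g = ut (g 0 1) := by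
  obtain ⟨h1, h2, h3⟩ := hg
  apply Matrix.SpecialLinearGroup.ext
  intro i j
  fin_cases i <;> fin_cases j <;> simp [ut, h1, h2, h3]

theorem ut_injective : Function.Injective (ut : F → SL2 F) := by
  intro s t h
  have := congrArg (fun g : SL2 F => g 0 1) h
  simpa [ut] using this

/-- the conjugate of `unip F` by `x` -/
def rad (x : SL2 F) : Subgroup (SL2 F) := (unip F).map (MulAut.conj x).toMonoidHom

theorem mem_rad (x : SL2 F) (t : F) : x * ut t * x⁻¹ ∈ rad x := ⟨ut t, ut_mem t, rfl⟩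

theorem sum_rad [Fintype F] (x : SL2 F) (φ : rad x → ℂ) :
    ∑ᶠ u : rad x, φ u = ∑ t : F, φ ⟨x * ut t * x⁻¹, mem_rad x t⟩ := by
  have hb : Function.Bijective (fun t : F => (⟨x * ut t * x⁻¹, mem_rad x t⟩ : rad x)) := by
    constructor
    · intro s t h
      have h1 : x * ut s * x⁻¹ = x * ut t * x⁻¹ := congrArg Subtype.val h
      exact ut_injective (mul_left_cancel (mul_right_cancel h1))
    · rintro ⟨_, g, hg, rfl⟩
      refine ⟨g 0 1, Subtype.ext ?_⟩
      change x * ut (g 0 1) * x⁻¹ = x * g * x⁻¹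
      rw [← mem_unip hg]
  rw [← finsum_eq_sum_of_fintype]
  exact (finsum_comp_equiv (Equiv.ofBijective _ hb)).symm

/-- points of the closure of a class have the trace of the class -/
theorem trace_of_mem {x : SL2 (AlgebraicClosure F)} {g : SL2 F} (hg : g ∈ Obar F x) :
    algebraMap F (AlgebraicClosure F) (g 0 0 + g 1 1) = x 0 0 + x 1 1 := by
  have h := hg (MvPolynomial.X (0, 0) + MvPolynomial.X (1, 1) - MvPolynomial.C (x 0 0 + x 1 1)) (by
    intro y hy
    obtain ⟨c, hc⟩ := isConj_iff.1 hy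
    have h1 : Matrix.trace (y : Matrix (Fin 2) (Fin 2) (AlgebraicClosure F)) =
        Matrix.trace (x : Matrix (Fin 2) (Fin 2) (AlgebraicClosure F)) := by
      rw [← hc, Matrix.SpecialLinearGroup.coe_mul, Matrix.trace_mul_comm, ← Matrix.SpecialLinearGroup.coe_mul,
        ← mul_assoc, inv_mul_cancel, one_mul]
    rw [Matrix.trace_fin_two, Matrix.trace_fin_two] at h1
    simp [h1])
  simp only [map_sub, map_add, MvPolynomial.eval_X, MvPolynomial.eval_C] at h
  rw [map_add]
  have h2 : ∀ i j, (Matrix.SpecialLinearGroup.map (algebraMap F (AlgebraicClosure F)) g) i j =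
      algebraMap F (AlgebraicClosure F) (g i j) := fun i j => rfl
  rw [h2, h2] at h
  linear_combination h

theorem mem_of_conj {x g c : SL2 F} (h : c * x = g * c) :
    g ∈ Obar F (Matrix.SpecialLinearGroup.map (algebraMap F (AlgebraicClosure F)) x) := by
  intro p hp
  apply hp
  rw [Set.mem_ofPred_eq, isConj_iff]
  refine ⟨Matrix.SpecialLinearGroup.map (algebraMap F (AlgebraicClosure F)) c, ?_⟩
  rw [← map_inv, ← map_mul, ← map_mul, h, mul_assoc, mul_inv_cancel, mul_one]

/-- if the characteristic polynomial of `x` has no root in `F`, no coset of a unipotent radical lies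
in the closure of the class of `x` -/
theorem weak_of_elliptic {x : SL2 F} (hx : ∀ a : F, a * a - (x 0 0 + x 1 1) * a + 1 ≠ 0)
    (f : Obar F (Matrix.SpecialLinearGroup.map (algebraMap F (AlgebraicClosure F)) x) → ℂ) : Weak f := by
  intro g U hU h
  exfalso
  obtain ⟨c, rfl⟩ := hU
  have htr : ∀ t : F, (c⁻¹ * g * c) 0 0 + (c⁻¹ * g * c) 1 1 + (c⁻¹ * g * c) 1 0 * t =
      x 0 0 + x 1 1 := by
    intro t
    have h1 := trace_of_mem (h ⟨c * ut t * c⁻¹, mem_rad c t⟩)
    have h2 : (Matrix.SpecialLinearGroup.map (algebraMap F (AlgebraicClosure F)) x) 0 0 +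
        (Matrix.SpecialLinearGroup.map (algebraMap F (AlgebraicClosure F)) x) 1 1 =
        algebraMap F (AlgebraicClosure F) (x 0 0 + x 1 1) := by rw [map_add]; rfl
    rw [h2] at h1
    have h3 := (algebraMap F (AlgebraicClosure F)).injective h1
    rw [← h3]
    have h4 : Matrix.trace ((g * (c * ut t * c⁻¹) : SL2 F) : Matrix (Fin 2) (Fin 2) F) =
        Matrix.trace ((c⁻¹ * g * c * ut t : SL2 F) : Matrix (Fin 2) (Fin 2) F) := by
      have e1 : g * (c * ut t * c⁻¹) = (g * c * ut t) * c⁻¹ := by group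
      have e2 : c⁻¹ * g * c * ut t = c⁻¹ * (g * c * ut t) := by group
      rw [e1, e2, Matrix.SpecialLinearGroup.coe_mul, Matrix.trace_mul_comm, ← Matrix.SpecialLinearGroup.coe_mul]
    rw [Matrix.trace_fin_two, Matrix.trace_fin_two] at h4
    rw [h4, Matrix.SpecialLinearGroup.coe_mul (c⁻¹ * g * c) (ut t)]
    simp only [Matrix.mul_apply, Fin.sum_univ_two, ut]
    simp
    ring
  have h0 := htr 0
  have h1 := htr 1
  have hc : (c⁻¹ * g * c) 1 0 = 0 := by linear_combination h1 - h0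
  have hdet : (c⁻¹ * g * c) 0 0 * (c⁻¹ * g * c) 1 1 - (c⁻¹ * g * c) 0 1 * (c⁻¹ * g * c) 1 0 = 1 := by
    have := (c⁻¹ * g * c).2
    rwa [Matrix.det_fin_two] at this
  apply hx ((c⁻¹ * g * c) 0 0)
  rw [hc] at hdet h0
  linear_combination (c⁻¹ * g * c) 0 0 * h0 - hdet

theorem cusp_eq [Fintype F] {φ : SL2 F → ℂ} (hφ : Cuspidal φ) (g x y : SL2 F) (hxy : x * y = 1) :
    ∑ t : F, φ (g * (x * ut t * y)) = 0 := by
  have hy : y = x⁻¹ := (inv_eq_of_mul_eq_one_right hxy).symm
  subst hy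
  have h := hφ g (rad x) ⟨x, rfl⟩
  rw [sum_rad x (fun u => φ (g * u))] at h
  exact h

end General

section Two

theorem eqn2 (φ : SL2 (ZMod 2) → ℂ) (hφ : Cuspidal φ) {g B : SL2 (ZMod 2)} (x y : SL2 (ZMod 2))
    (hB : B = g * (x * ut 1 * y)) (hxy : x * y = 1) : φ g + φ B = 0 := by
  have h := cusp_eq hφ g x y hxy
  have h1 : (∑ t : ZMod 2, φ (g * (x * ut t * y))) = φ (g * (x * ut 0 * y)) + φ (g * (x * ut 1 * y)) :=
    Fin.sum_univ_two _
  have h0 : (ut 0 : SL2 (ZMod 2)) = 1 := by decide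
  rw [h1, h0, mul_one, hxy, mul_one, ← hB] at h
  exact h

theorem rel2 (φ : SL2 (ZMod 2) → ℂ) (hφ : Cuspidal φ) :
    φ (m 0 1 1 1 (by decide)) = φ (m 1 1 1 0 (by decide)) := by
  have e1 : φ (m 0 1 1 1 (by decide)) + φ (m 0 1 1 0 (by decide)) = 0 :=
    eqn2 φ hφ (m 1 0 0 1 (by decide)) (m 1 0 0 1 (by decide)) (by decide) (by decide)
  have e2 : φ (m 0 1 1 0 (by decide)) + φ (m 1 1 1 0 (by decide)) = 0 :=
    eqn2 φ hφ (m 0 1 1 0 (by decide)) (m 0 1 1 0 (by decide)) (by decide) (by decide)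
  linear_combination e1 - e2

/-- the failure over the field with two elements -/
theorem two : ∃ (x : SL2 (AlgebraicClosure (ZMod 2))) (f : Obar (ZMod 2) x → ℂ), Weak f ∧
    ¬ ∃ φ : SL2 (ZMod 2) → ℂ, Cuspidal φ ∧ ∀ g : Obar (ZMod 2) x, φ g = f g := by
  classical
  let x : SL2 (ZMod 2) := m 0 1 1 1 (by decide)
  refine ⟨Matrix.SpecialLinearGroup.map (algebraMap (ZMod 2) (AlgebraicClosure (ZMod 2))) x,
    fun g => if (g : SL2 (ZMod 2)) = x then 1 else 0, weak_of_elliptic (by decide) _, ?_⟩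
  rintro ⟨φ, hφ, h⟩
  have h' : ∀ g ∈ Obar (ZMod 2) (Matrix.SpecialLinearGroup.map
      (algebraMap (ZMod 2) (AlgebraicClosure (ZMod 2))) x), φ g = if g = x then 1 else 0 :=
    fun g hg => h ⟨g, hg⟩
  have h1 := (h' x (mem_of_conj (c := 1) (by decide))).trans (if_pos rfl)
  have h2 := (h' (m 1 1 1 0 (by decide)) (mem_of_conj (c := m 0 1 1 0 (by decide))
    (by decide))).trans (if_neg (by decide))
  have h4 := rel2 φ hφ
  change φ x = _ at h4
  rw [h1, h2] at h4
  exact one_ne_zero h4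

end Two

section Three

theorem eqn3 (φ : SL2 (ZMod 3) → ℂ) (hφ : Cuspidal φ) {g B C : SL2 (ZMod 3)} (x y : SL2 (ZMod 3))
    (hB : B = g * (x * ut 1 * y)) (hC : C = g * (x * ut 2 * y)) (hxy : x * y = 1) :
    φ g + φ B + φ C = 0 := by
  have h := cusp_eq hφ g x y hxy
  have h1 : (∑ t : ZMod 3, φ (g * (x * ut t * y))) =
      φ (g * (x * ut 0 * y)) + φ (g * (x * ut 1 * y)) + φ (g * (x * ut 2 * y)) :=
    Fin.sum_univ_three _
  have h0 : (ut 0 : SL2 (ZMod 3)) = 1 := by decide
  rw [h1, h0, mul_one, hxy, mul_one, ← hB, ← hC] at h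
  exact h

theorem rel3 (φ : SL2 (ZMod 3) → ℂ) (hφ : Cuspidal φ) :
    φ (m 0 2 1 0 (by decide)) + φ (m 0 1 2 0 (by decide)) =
      φ (m 1 1 1 2 (by decide)) + φ (m 2 2 2 1 (by decide)) := by
  have e1 : φ (m 0 2 1 0 (by decide)) + φ (m 1 2 1 0 (by decide)) + φ (m 2 2 1 0 (by decide)) = 0 :=
    eqn3 φ hφ (m 0 1 2 0 (by decide)) (m 0 2 1 0 (by decide)) (by decide) (by decide) (by decide)
  have e2 : φ (m 0 2 1 0 (by decide)) + φ (m 0 2 1 1 (by decide)) + φ (m 0 2 1 2 (by decide)) = 0 :=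
    eqn3 φ hφ (m 1 0 0 1 (by decide)) (m 1 0 0 1 (by decide)) (by decide) (by decide) (by decide)
  have e3 : φ (m 0 2 1 0 (by decide)) + φ (m 1 1 0 1 (by decide)) + φ (m 2 0 2 2 (by decide)) = 0 :=
    eqn3 φ hφ (m 1 0 1 1 (by decide)) (m 1 0 2 1 (by decide)) (by decide) (by decide) (by decide)
  have e4 : φ (m 0 2 1 0 (by decide)) + φ (m 1 0 2 1 (by decide)) + φ (m 2 1 0 2 (by decide)) = 0 :=
    eqn3 φ hφ (m 1 0 2 1 (by decide)) (m 1 0 1 1 (by decide)) (by decide) (by decide) (by decide)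
  have e5 : φ (m 0 1 2 0 (by decide)) + φ (m 2 1 2 0 (by decide)) + φ (m 1 1 2 0 (by decide)) = 0 :=
    eqn3 φ hφ (m 0 1 2 0 (by decide)) (m 0 2 1 0 (by decide)) (by decide) (by decide) (by decide)
  have e6 : φ (m 0 1 2 0 (by decide)) + φ (m 0 1 2 2 (by decide)) + φ (m 0 1 2 1 (by decide)) = 0 :=
    eqn3 φ hφ (m 1 0 0 1 (by decide)) (m 1 0 0 1 (by decide)) (by decide) (by decide) (by decide)
  have e7 : φ (m 0 1 2 0 (by decide)) + φ (m 2 2 0 2 (by decide)) + φ (m 1 0 1 1 (by decide)) = 0 :=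
    eqn3 φ hφ (m 1 0 1 1 (by decide)) (m 1 0 2 1 (by decide)) (by decide) (by decide) (by decide)
  have e8 : φ (m 0 1 2 0 (by decide)) + φ (m 2 0 1 2 (by decide)) + φ (m 1 2 0 1 (by decide)) = 0 :=
    eqn3 φ hφ (m 1 0 2 1 (by decide)) (m 1 0 1 1 (by decide)) (by decide) (by decide) (by decide)
  have e9 : φ (m 1 1 1 2 (by decide)) + φ (m 0 1 2 2 (by decide)) + φ (m 2 1 0 2 (by decide)) = 0 :=
    eqn3 φ hφ (m 0 1 2 0 (by decide)) (m 0 2 1 0 (by decide)) (by decide) (by decide) (by decide)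
  have e10 : φ (m 1 1 1 2 (by decide)) + φ (m 1 2 1 0 (by decide)) + φ (m 1 0 1 1 (by decide)) = 0 :=
    eqn3 φ hφ (m 1 0 0 1 (by decide)) (m 1 0 0 1 (by decide)) (by decide) (by decide) (by decide)
  have e11 : φ (m 1 1 1 2 (by decide)) + φ (m 2 0 1 2 (by decide)) + φ (m 0 2 1 2 (by decide)) = 0 :=
    eqn3 φ hφ (m 1 0 1 1 (by decide)) (m 1 0 2 1 (by decide)) (by decide) (by decide) (by decide)
  have e12 : φ (m 1 1 1 2 (by decide)) + φ (m 1 1 0 1 (by decide)) + φ (m 1 1 2 0 (by decide)) = 0 :=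
    eqn3 φ hφ (m 1 0 2 1 (by decide)) (m 1 0 1 1 (by decide)) (by decide) (by decide) (by decide)
  have e13 : φ (m 2 2 2 1 (by decide)) + φ (m 0 2 1 1 (by decide)) + φ (m 1 2 0 1 (by decide)) = 0 :=
    eqn3 φ hφ (m 0 1 2 0 (by decide)) (m 0 2 1 0 (by decide)) (by decide) (by decide) (by decide)
  have e14 : φ (m 2 2 2 1 (by decide)) + φ (m 2 1 2 0 (by decide)) + φ (m 2 0 2 2 (by decide)) = 0 :=
    eqn3 φ hφ (m 1 0 0 1 (by decide)) (m 1 0 0 1 (by decide)) (by decide) (by decide) (by decide)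
  have e15 : φ (m 2 2 2 1 (by decide)) + φ (m 1 0 2 1 (by decide)) + φ (m 0 1 2 1 (by decide)) = 0 :=
    eqn3 φ hφ (m 1 0 1 1 (by decide)) (m 1 0 2 1 (by decide)) (by decide) (by decide) (by decide)
  have e16 : φ (m 2 2 2 1 (by decide)) + φ (m 2 2 0 2 (by decide)) + φ (m 2 2 1 0 (by decide)) = 0 :=
    eqn3 φ hφ (m 1 0 2 1 (by decide)) (m 1 0 1 1 (by decide)) (by decide) (by decide) (by decide)
  linear_combination (e1 + e2 + e3 + e4 + e5 + e6 + e7 + e8 - e9 - e10 - e11 - e12 - e13 - e14 -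
    e15 - e16) / 4

/-- the failure over the field with three elements -/
theorem three : ∃ (x : SL2 (AlgebraicClosure (ZMod 3))) (f : Obar (ZMod 3) x → ℂ), Weak f ∧
    ¬ ∃ φ : SL2 (ZMod 3) → ℂ, Cuspidal φ ∧ ∀ g : Obar (ZMod 3) x, φ g = f g := by
  classical
  let x : SL2 (ZMod 3) := m 0 2 1 0 (by decide)
  refine ⟨Matrix.SpecialLinearGroup.map (algebraMap (ZMod 3) (AlgebraicClosure (ZMod 3))) x,
    fun g => if (g : SL2 (ZMod 3)) = x then 1 else 0, weak_of_elliptic (by decide) _, ?_⟩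
  rintro ⟨φ, hφ, h⟩
  have h' : ∀ g ∈ Obar (ZMod 3) (Matrix.SpecialLinearGroup.map
      (algebraMap (ZMod 3) (AlgebraicClosure (ZMod 3))) x), φ g = if g = x then 1 else 0 :=
    fun g hg => h ⟨g, hg⟩
  have h1 := (h' x (mem_of_conj (c := 1) (by decide))).trans (if_pos rfl)
  have h2 := (h' (m 0 1 2 0 (by decide)) (mem_of_conj (c := m 1 1 1 2 (by decide))
    (by decide))).trans (if_neg (by decide))
  have h3 := (h' (m 1 1 1 2 (by decide)) (mem_of_conj (c := m 1 1 0 1 (by decide))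
    (by decide))).trans (if_neg (by decide))
  have h4 := (h' (m 2 2 2 1 (by decide)) (mem_of_conj (c := m 0 1 2 2 (by decide))
    (by decide))).trans (if_neg (by decide))
  have h5 := rel3 φ hφ
  change φ x + _ = _ at h5
  rw [h1, h2, h3, h4] at h5
  norm_num at h5

end Three

/-- **Main theorem.** Over the field with `q = 2` or `q = 3` elements there are a conjugacy class of
`SL_2` and a function in `S_w` of its closure that is not the restriction of a cuspidal function. -/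
theorem result : ∀ (q : ℕ) [Fact q.Prime], (q = 2 ∨ q = 3) →
    ∃ (x : SL2 (AlgebraicClosure (ZMod q))) (f : Obar (ZMod q) x → ℂ), Weak f ∧
      ¬ ∃ φ : SL2 (ZMod q) → ℂ, Cuspidal φ ∧ ∀ g : Obar (ZMod q) x, φ g = f g := by
  rintro q hq (rfl | rfl)
  · exact two
  · exact three

end Pool.Agent.Results.MP_21a573_al.SmallFields
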